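import Pool.Agent.W95.EQ.Stm

set_option autoImplicit false
set_option linter.unusedVariables false

open Polynomial Topology Filter MeasureTheory
open scoped ENNReal

namespace Pool.Agent.W191.EQ

open Pool.Agent.W95.BK Pool.Agent.W95.EQ

universe u

theorem cl_inj {K : Type u} [NontriviallyNormedField K] [IsUltrametricDist K] {a b : K}
    (h : (cl a : BA K) = cl b) : a = b := by
  have h1 : (cl a : BA K) (X - C b) = (cl b : BA K) (X - C b) := by rw [h]
  have h2 : ‖(X - C b : K[X]).eval a‖ = ‖(X - C b : K[X]).eval b‖ := h1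
  simp only [eval_sub, eval_X, eval_C, sub_self, norm_zero, norm_eq_zero] at h2
  exact sub_eq_zero.1 h2

theorem pt_inj {K : Type u} [NontriviallyNormedField K] [IsUltrametricDist K] :
    Function.Injective (pt : Option K → P1B K) := by
  intro o o' h
  rcases o with _ | a <;> rcases o' with _ | b
  · rfl
  · exact absurd h (OnePoint.infty_ne_coe _)
  · exact absurd h (OnePoint.coe_ne_infty _)
  · have : (cl a : BA K) = cl b := OnePoint.coe_injective h
    rw [cl_inj this]

theorem act_pt (hA : S_ACT.{u}) {K : Type u} [NontriviallyNormedField K] [IsUltrametricDist K]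
    [IsAlgClosed K] (R : RMap K) (o : Option K) : ∃ o' : Option K, R.act (pt o) = pt o' := by
  classical
  rcases o with _ | w
  · by_cases h : R.Q.coeff R.d = 0
    · refine ⟨none, ?_⟩
      exact if_pos h
    · refine ⟨some (R.P.coeff R.d / R.Q.coeff R.d), ?_⟩
      exact if_neg h
  · by_cases h : R.Q.eval w = 0
    · exact ⟨none, (hA K R).2.2.1 w h⟩
    · exact ⟨some _, (hA K R).2.1 w h⟩

theorem localDeg_le (hA : S_ACT.{u}) (hD : S_DENSE.{u}) {K : Type u} [NontriviallyNormedField K]
    [IsUltrametricDist K] [IsAlgClosed K] (R : RMap K) (x : P1B K) : localDeg R x ≤ R.d := by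
  classical
  unfold localDeg
  split_ifs with h
  · obtain ⟨U, -, -, hU⟩ := Nat.find_spec h Set.univ univ_mem
    have := hD K (R.act x)
    obtain ⟨b, hb⟩ := hU.exists
    rw [← hb, ← (hA K R).2.2.2.2 b]
    unfold cnt
    exact Multiset.card_le_card (Multiset.filter_le _ _)
  · exact Nat.zero_le _

theorem main : S_ATL.{u} → S_ACT.{u} → S_DENSE.{u} → S_T2.{u} → S_MAXA.{u} := by
  intro hL hA hD hT K _ _ _ R ρ hρ hinv ⟨o₀, ho₀⟩
  classical
  have hT2 : T2Space (P1B K) := (hT K).2.2.1
  have hfin : {o : Option K | ρ.real {pt o₀} ≤ ρ.real {pt o}}.Finite := by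
    by_contra hinf
    obtain ⟨n, hn⟩ := exists_nat_gt (1 / ρ.real {pt o₀})
    obtain ⟨t, ht, htn⟩ := Set.Infinite.exists_subset_card_eq hinf n
    have h1 : ∑ x ∈ t.image pt, ρ.real {x} = ρ.real (t.image pt : Finset (P1B K)) := by
      exact sum_measureReal_singleton _
    have h2 : ρ.real ((t.image pt : Finset (P1B K)) : Set (P1B K)) ≤ 1 := measureReal_le_one
    rw [← h1, Finset.sum_image (fun a _ b _ h => pt_inj h)] at h2
    have h3 : (t.card : ℝ) * ρ.real {pt o₀} ≤ ∑ x ∈ t, ρ.real {pt x} := by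
      rw [← nsmul_eq_mul]
      exact Finset.card_nsmul_le_sum _ _ _ fun x hx => ht hx
    rw [htn] at h3
    rw [div_lt_iff₀ ho₀] at hn
    linarith
  obtain ⟨o₁, ho₁, hmax⟩ := Set.exists_max_image _ (fun o : Option K => ρ.real {pt o}) hfin
    ⟨o₀, le_refl (ρ.real {pt o₀})⟩
  set α := ρ.real {pt o₁} with hα
  have hα0 : 0 < α := lt_of_lt_of_le ho₀ ho₁
  have hall : ∀ o : Option K, ρ.real {pt o} ≤ α := by
    intro o
    rcases le_total (ρ.real {pt o₀}) (ρ.real {pt o}) with h | h
    · exact hmax o h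
    · exact h.trans ho₁
  refine ⟨{o | ρ.real {pt o} = α}, ?_, ⟨o₁, rfl⟩, ?_⟩
  · refine hfin.subset fun o ho => ?_
    change ρ.real {pt o₀} ≤ ρ.real {pt o}
    rw [show ρ.real {pt o} = α from ho]
    exact ho₁
  · intro o ho
    have ho : ρ.real {pt o} = α := ho
    obtain ⟨o', ho'⟩ := act_pt hA R o
    have h1 := hL K R ρ hρ hinv o
    rw [ho', ho] at h1
    have hd : (0 : ℝ) < R.d := by exact_mod_cast R.pos
    have hle : (localDeg R (pt o) : ℝ) ≤ R.d := by exact_mod_cast localDeg_le hA hD R (pt o)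
    have h2 := hall o'
    have h0 : 0 ≤ ρ.real {pt o'} := measureReal_nonneg
    have h3 : (R.d : ℝ) * α ≤ R.d * ρ.real {pt o'} := by
      rw [h1]
      exact mul_le_mul_of_nonneg_right hle h0
    have h4 : ρ.real {pt o'} = α := le_antisymm h2 (le_of_mul_le_mul_left h3 hd)
    refine ⟨by rw [ho]; exact hα0, ?_, o', h4, ho'⟩
    rw [h4] at h1
    have := mul_right_cancel₀ hα0.ne' h1
    exact_mod_cast this.symm

end Pool.Agent.W191.EQ
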