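import Pool.Agent.W555.EQ.Stm

set_option autoImplicit false

namespace Pool.Agent.W191.EQ
open Pool.Agent.W555.EQ Cardinal MvPolynomial

/-- bijections of transcendence bases extend -/
theorem ext_basis {ι κ : Type} (v : ι → ℂ) (w : κ → ℂ) (hv : IsTranscendenceBasis ℚ v)
    (hw : IsTranscendenceBasis ℚ w) (e : ι ≃ κ) : ∃ σ : ℂ ≃+* ℂ, ∀ i, σ (v i) = w (e i) := by
  let _ := IsAlgClosed.isAlgClosure_of_transcendence_basis v hv
  let _ := IsAlgClosed.isAlgClosure_of_transcendence_basis w hw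
  let E : Algebra.adjoin ℚ (Set.range v) ≃+* Algebra.adjoin ℚ (Set.range w) :=
    ((hv.1.aevalEquiv.symm.trans (renameEquiv ℚ e)).trans hw.1.aevalEquiv).toRingEquiv
  refine ⟨IsAlgClosure.equivOfEquiv ℂ ℂ E, fun i => ?_⟩
  have h1 : v i = algebraMap (Algebra.adjoin ℚ (Set.range v)) ℂ (hv.1.aevalEquiv (X i)) := by
    rw [hv.1.algebraMap_aevalEquiv, aeval_X]
  have h2 : w (e i) = algebraMap (Algebra.adjoin ℚ (Set.range w)) ℂ
      (hw.1.aevalEquiv (X (e i))) := by
    rw [hw.1.algebraMap_aevalEquiv, aeval_X]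
  have h3 : E (hv.1.aevalEquiv (X i)) = hw.1.aevalEquiv (X (e i)) := by
    change hw.1.aevalEquiv (renameEquiv ℚ e (hv.1.aevalEquiv.symm (hv.1.aevalEquiv (X i)))) = _
    rw [AlgEquiv.symm_apply_apply, renameEquiv_apply, rename_X]
  rw [h1, IsAlgClosure.equivOfEquiv_algebraMap, h3, ← h2]

theorem mk_basis {t : Set ℂ} (ht : IsTranscendenceBasis ℚ ((↑) : t → ℂ)) : #t = #ℂ := by
  refine (IsAlgClosed.cardinal_eq_cardinal_transcendence_basis_of_aleph0_lt' _ ht
    mk_le_aleph0 ?_).symm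
  rw [mk_complex]
  exact aleph0_lt_continuum

theorem autB : StAutB := by
  intro E _ x x' hx hx'
  obtain ⟨t, hxt, ht⟩ := exists_isTranscendenceBasis_superset (AlgebraicIndependent.coe_range hx)
  obtain ⟨t', hxt', ht'⟩ := exists_isTranscendenceBasis_superset (AlgebraicIndependent.coe_range hx')
  let y : E → t := fun e => ⟨x e, hxt ⟨e, rfl⟩⟩
  let y' : E → t' := fun e => ⟨x' e, hxt' ⟨e, rfl⟩⟩
  have hy : Function.Injective y := fun a b h => hx.injective (congrArg Subtype.val h)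
  have hy' : Function.Injective y' := fun a b h => hx'.injective (congrArg Subtype.val h)
  have htinf : ℵ₀ < #t := by
    rw [mk_basis ht, mk_complex]
    exact aleph0_lt_continuum
  have hcard : Nonempty (t ≃ t') := by
    rw [← Cardinal.eq, mk_basis ht, mk_basis ht']
  obtain ⟨g, hg⟩ := Cardinal.extend_function_of_lt
    ((Equiv.ofInjective y hy).symm.toEmbedding.trans ⟨y', hy'⟩)
    (lt_of_lt_of_le (lt_aleph0_of_finite (Set.range y)) htinf.le) hcard
  obtain ⟨σ, hσ⟩ := ext_basis _ _ ht ht' g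
  refine ⟨σ, fun e => ?_⟩
  have h1 := hg ⟨y e, ⟨e, rfl⟩⟩
  have h2 : (Equiv.ofInjective y hy).symm ⟨y e, ⟨e, rfl⟩⟩ = e :=
    Equiv.ofInjective_symm_apply hy e
  have h3 : g (y e) = y' e := by
    refine h1.trans ?_
    change y' ((Equiv.ofInjective y hy).symm ⟨y e, ⟨e, rfl⟩⟩) = y' e
    rw [h2]
  have h4 := hσ (y e)
  rw [h3] at h4
  exact h4

end Pool.Agent.W191.EQ
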